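import Pool.Agent.helper2.BB.Spec

/-! C2 of project bb (MP_b9b9c0_an): coordinates in the plane of two orthonormal vectors. -/

set_option autoImplicit false

namespace BB

theorem C2_inner {E : Type} [NormedAddCommGroup E] [InnerProductSpace ℂ E] (e₁ e₂ : E) (θ : ℝ)
    (A B : ℂ) (h1 : (inner ℂ e₁ e₁ : ℂ) = 1) (h2 : (inner ℂ e₂ e₂ : ℂ) = 1)
    (h12 : (inner ℂ e₁ e₂ : ℂ) = 0) (h21 : (inner ℂ e₂ e₁ : ℂ) = 0) :
    (inner ℂ ((Real.cos θ : ℂ) • e₁ + (Real.sin θ : ℂ) • e₂) (A • e₁ + B • e₂) : ℂ) =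
      A * Complex.cos θ + B * Complex.sin θ := by
  rw [← Complex.ofReal_cos, ← Complex.ofReal_sin]
  simp only [inner_add_left, inner_add_right, inner_smul_left, inner_smul_right, h1, h2, h12, h21,
    Complex.conj_ofReal]
  ring

theorem C2_main : C2_stmt := by
  intro E _ _ e₁ e₂ θ A B n1 n2 h12
  have h1 : (inner ℂ e₁ e₁ : ℂ) = 1 := by
    rw [inner_self_eq_norm_sq_to_K, n1]; simp
  have h2 : (inner ℂ e₂ e₂ : ℂ) = 1 := by
    rw [inner_self_eq_norm_sq_to_K, n2]; simp
  have h21 : (inner ℂ e₂ e₁ : ℂ) = 0 := by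
    rw [← inner_conj_symm, h12]; simp
  have hcs : Complex.cos (θ : ℂ) ^ 2 + Complex.sin (θ : ℂ) ^ 2 = 1 := by
    rw [add_comm]; exact Complex.sin_sq_add_cos_sq _
  have hin := C2_inner e₁ e₂ θ A B h1 h2 h12 h21
  have hy : (A • e₁ + B • e₂ : E) - (A * Complex.cos θ + B * Complex.sin θ) •
      ((Real.cos θ : ℂ) • e₁ + (Real.sin θ : ℂ) • e₂) =
      (-(B * Complex.cos θ - A * Complex.sin θ) * Complex.sin θ) • e₁ +
      ((B * Complex.cos θ - A * Complex.sin θ) * Complex.cos θ) • e₂ := by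
    have ha : A - (A * Complex.cos θ + B * Complex.sin θ) * Complex.cos θ =
        -(B * Complex.cos θ - A * Complex.sin θ) * Complex.sin θ := by
      linear_combination (-A) * hcs
    have hb : B - (A * Complex.cos θ + B * Complex.sin θ) * Complex.sin θ =
        (B * Complex.cos θ - A * Complex.sin θ) * Complex.cos θ := by
      linear_combination (-B) * hcs
    rw [← ha, ← hb]
    simp only [Complex.ofReal_cos, Complex.ofReal_sin]
    module
  refine ⟨?_, ?_, ?_⟩
  · have h : ‖(Real.cos θ : ℂ) • e₁ + (Real.sin θ : ℂ) • e₂‖ ^ 2 = (1 : ℝ) := by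
      have h3 := C2_inner e₁ e₂ θ (Real.cos θ : ℂ) (Real.sin θ : ℂ) h1 h2 h12 h21
      rw [inner_self_eq_norm_sq_to_K] at h3
      have h4 : ((‖(Real.cos θ : ℂ) • e₁ + (Real.sin θ : ℂ) • e₂‖ ^ 2 : ℝ) : ℂ) = ((1 : ℝ) : ℂ) := by
        push_cast
        push_cast at h3
        refine h3.trans ?_
        linear_combination hcs
      exact_mod_cast h4
    have h0 := norm_nonneg ((Real.cos θ : ℂ) • e₁ + (Real.sin θ : ℂ) • e₂)
    nlinarith
  · intro ε q
    unfold VV
    rw [hin, hy]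
    simp only [stg, Complex.ofReal_cos, Complex.ofReal_sin]
    module
  · unfold ff
    rw [hin, hy]
    simp only [fin, Complex.ofReal_cos, Complex.ofReal_sin, inner_smul_right, inner_add_right, h1, h12]
    ring

end BB
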